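import Pool.Agent.H24.CL.Defs

/-!
# The critical Vinogradov mean value up to one logarithm: targets (helper24)

Every `T_X` is a proposition to be proved in a module of its own. See `Defs.lean`.
-/

set_option autoImplicit false

open Finset MeasureTheory

namespace Pool.Agent.H24.CL

/-! ## A. Basic facts -/

/-- EX: properties of `e` and `u`. -/
def T_EX : Prop :=
  (∀ x : UnitAddCircle, ‖e x‖ = 1) ∧ (∀ x y : UnitAddCircle, e (x + y) = e x * e y) ∧ e 0 = 1 ∧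
  (∀ x : UnitAddCircle, e (-x) = (starRingEnd ℂ) (e x)) ∧ Continuous e ∧
  (∀ (q : ℕ) (m : ℤ), 0 < q →
    ∑ h ∈ range q, e ((((h : ℝ) * (m : ℝ) / (q : ℝ) : ℝ)) : UnitAddCircle) =
      if (q : ℤ) ∣ m then (q : ℂ) else 0) ∧
  (∀ (k n : ℕ) (a a' : X k), P (a + a') n = P a n + P a' n) ∧
  (∀ (k N : ℕ), Continuous (u N : X k → ℂ)) ∧ (∀ (k N : ℕ) (a : X k), ‖u N a‖ ≤ 1)

/-- PF: splitting into classes. -/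
def T_PF : Prop :=
  (∀ (k q b m : ℕ) (a : X k), P a (b + q * m) = P a b + P (phi q b a) m) ∧
  (∀ (k q L : ℕ), 1 ≤ q → 1 ≤ L → ∀ a : X k,
    u (q * L) a = (1 / (q : ℂ)) * ∑ b ∈ range q, e (P a b) * u L (phi q b a))

/-- CB: chains and residue classes. -/
def T_CB : Prop :=
  (∀ (k q L : ℕ) (c : List ℕ) (a : X k), ‖f L (Ch q c a)‖ = ‖fc (q ^ c.length) (pv q c) L a‖) ∧
  (∀ (q : ℕ) (c c' : List ℕ), (∀ b ∈ c, b < q) → (∀ b ∈ c', b < q) → c.length = c'.length →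
    pv q c = pv q c' → c = c') ∧
  (∀ (q : ℕ) (c : List ℕ), 1 ≤ q → (∀ b ∈ c, b < q) → pv q c < q ^ c.length)

/-- MP: the maps `phi` preserve the measure. -/
def T_MP : Prop :=
  ∀ (k q b : ℕ), 1 ≤ q → Continuous (phi q b : X k → X k) ∧
    Function.Surjective (phi q b : X k → X k) ∧
    MeasurePreserving (phi q b : X k → X k) volume volume

/-- TO: torsion points. -/
def T_TO : Prop :=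
  ∀ (k q : ℕ), 1 ≤ q →
    (∀ (r : ℕ) (a : X k), a ∈ H k q r ↔ ∃ n : Fin k → ℤ, a = tor q r n) ∧
    (∀ (r : ℕ) (a : X k), a ∈ HF k q r ↔ a ∈ H k q r) ∧
    (∀ r : ℕ, (HF k q r).card = q ^ (r * k)) ∧
    (∀ (r : ℕ) (n n' : Fin k → ℤ), (tor q r n : X k) = tor q r n' ↔
      ∀ i, ((q : ℤ) ^ r) ∣ n i - n' i) ∧
    (∀ (r b : ℕ) (n : Fin k → ℤ), phi q b (tor q (r + 1) n : X k) = tor q r (fun i =>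
      (q : ℤ) ^ i.val * ∑ j : Fin k, (Nat.choose (j.val + 1) (i.val + 1) : ℤ) *
        (b : ℤ) ^ (j.val - i.val) * n j)) ∧
    (∀ (b : ℕ) (a : X k), a ∈ H k q 1 → phi q b a = 0)

/-- KC: the kernel of `phi q b` has `q^K` points, all in `H k q k`. -/
def T_KC : Prop :=
  ∀ (k q b : ℕ), 1 ≤ q → Nat.card (phi q b : X k →+ X k).ker = q ^ (KN k) ∧
    (phi q b : X k →+ X k).ker ≤ H k q k

/-- SH: two points of an orbit which differ modulo `H k q 1` have at most `k - 1` common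
children. -/
def T_SH : Prop :=
  ∀ (k q : ℕ), q.Prime → k < q → ∀ a : X k, a ∈ H k q k → a ∉ H k q 1 →
    ∀ D : Finset ℕ, (∀ b ∈ D, b < q ∧ phi q b a = 0) → D.card ≤ k - 1

/-- CI: integration over cosets, with the maps `phi`. -/
def T_CI : Prop :=
  ∀ (k q : ℕ), 1 ≤ q → ∀ (g ψ : X k → ℝ) (B : ℝ), Measurable g → Measurable ψ →
    (∀ a, 0 ≤ g a ∧ g a ≤ B) → (∀ a, 0 ≤ ψ a ∧ ψ a ≤ B) →
    (∀ a : X k, ∑ h ∈ HF k q k, g (a + h) ≤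
      ∑ b ∈ range q, ∑ v ∈ (HF k q k).image (fun h => phi q b (a + h)), ψ v) →
    (q : ℝ) ^ (KN k) * ∫ a, g a ≤ (q : ℝ) * ∫ a, ψ a

/-- NW: the Vinogradov system in `k` pairs of variables modulo a prime `q > k` has only the
diagonal solutions; `2k`-th moment of the phases in a coset of `H k q 1`. -/
def T_NW : Prop :=
  ∀ (k q : ℕ), q.Prime → k < q → ∀ (D : Finset ℕ) (x : ℕ → ℂ) (A : ℝ), D ⊆ range q →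
    (∀ b ∈ D, ‖x b‖ ≤ A) →
      ∑ h ∈ HF k q 1, ‖∑ b ∈ D, x b * e (P h b)‖ ^ (2 * k) ≤
        (q : ℝ) ^ k * (Nat.factorial k : ℝ) * (D.card : ℝ) ^ k * A ^ (2 * k)

/-- WE: a power saving for complete sums. -/
def T_WE : Prop :=
  ∀ k : ℕ, 2 ≤ k → ∃ C : ℝ, 0 ≤ C ∧ ∀ q : ℕ, q.Prime → k < q → ∀ a : X k, a ∈ H k q 1 → a ≠ 0 →
    ‖∑ b ∈ range q, e (P a b)‖ ≤ C * (q : ℝ) ^ (1 - 1 / (2 * (k : ℝ)))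

/-- BO: the inequality of Boas and Bellman. -/
def T_BO : Prop :=
  ∀ (ι : Type) (Y : Finset ι) (B : Finset ℕ) (x : ℕ → ℂ) (a : ι → ℕ → ℂ) (Λ : ℝ), 0 ≤ Λ →
    (∀ w ∈ Y, ∑ w' ∈ Y, ‖∑ b ∈ B, a w b * (starRingEnd ℂ) (a w' b)‖ ≤ Λ) →
      ∑ w ∈ Y, ‖∑ b ∈ B, x b * a w b‖ ^ 2 ≤ Λ * ∑ b ∈ B, ‖x b‖ ^ 2

/-! ## B. Mean values -/

/-- SV: subcritical mean value with a real exponent. -/
def T_SV : Prop :=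
  ∀ (k : ℕ) (s : ℝ), 3 ≤ k → (KN k : ℝ) - 1 ≤ s → s < KN k → ∃ C : ℝ, 1 ≤ C ∧
    ∀ N : ℕ, 1 ≤ N → ∫ a : X k, ‖f N a‖ ^ (2 * s) ≤ C * (N : ℝ) ^ s

/-- TA: the tail. -/
def T_TA : Prop :=
  ∀ (k : ℕ) (θ : ℝ), 3 ≤ k → 0 < θ → θ ≤ 1 → ∃ C : ℝ, 1 ≤ C ∧ ∀ (N : ℕ) (t : ℝ), 1 ≤ N → 0 < t →
    (N : ℝ) ^ (KN k) * t ^ (2 * KN k) * volume.real {a : X k | t ≤ ‖u N a‖} ≤
      C * ((N : ℝ) * t ^ 2) ^ θ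

/-- TR: the truncated second moment. -/
def T_TR : Prop :=
  ∀ (k : ℕ) (θ : ℝ), 3 ≤ k → 0 < θ → θ ≤ 1 → ∃ C : ℝ, 1 ≤ C ∧ ∀ (N : ℕ) (M h : ℝ), 1 ≤ N →
    0 < M → 0 < h →
    ((N : ℝ) / M) ^ (KN k) * ∫ a in {a : X k | h ≤ M * ‖u N a‖ ^ 2}, M * ‖u N a‖ ^ 2 ≤
      C * h ^ (-((KN k : ℝ) - 1 - θ)) * ((N : ℝ) / M) ^ θ

/-- L2: the second moment. -/
def T_L2 : Prop :=
  ∀ (k N : ℕ), 1 ≤ k → 1 ≤ N → ∫ a : X k, ‖u N a‖ ^ 2 = 1 / (N : ℝ)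

/-- VA: the variance lemma. -/
def T_VA : Prop :=
  ∀ (k Q L : ℕ), 2 ≤ k → 1 ≤ Q → 1 ≤ L →
    volume.real {a : X k | 2 * (Q : ℝ) * L ≤ ∑ B ∈ range Q, ‖fc Q B L a‖ ^ 2} ≤ 1 / (Q : ℝ)

/-- JI: the counting function is the mean value. -/
def T_JI : Prop :=
  ∀ (s k N : ℕ), 1 ≤ k → 1 ≤ N →
    ((Pool.Agent.H22.VM.sols s k N).card : ℝ) = ∫ a : X k, ‖f N a‖ ^ (2 * s)

/-! ## C. Classes -/

/-- TY: every alive point lies in the first set of one of boundedly many chains, or some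
descendant is too high. -/
def T_TY : Prop :=
  ∀ (k m : ℕ) (ε : ℝ), 1 ≤ k → 0 < ε → ∃ (TT : ℕ) (T : ℝ), 1 ≤ T ∧ ∀ (q L : ℕ) (t₀ : ℝ),
    2 ≤ q → 1 ≤ L → 0 < t₀ →
    ∃ (W : Fin TT → ℕ → Set (X k)) (A n : Fin TT → ℕ → ℝ),
      (∀ c, IsChain k q m L T ((q : ℝ) ^ ε) t₀ (W c) (A c) (n c)) ∧
      {a : X k | t₀ ≤ ‖u (q ^ m * L) a‖} ⊆
        (⋃ c, W c 0) ∪ Etop k q m L (t₀ * (q : ℝ) ^ m)

/-- TP: the points with a too high descendant are rare. -/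
def T_TP : Prop :=
  ∀ (k m : ℕ) (D : ℝ), 3 ≤ k → 1 ≤ m → ∃ q₀ : ℕ, ∀ (q L : ℕ) (t₀ : ℝ), q₀ ≤ q → 1 ≤ L → 0 < t₀ →
    ((q : ℝ) ^ m * L) * t₀ ^ 2 ≤ (q : ℝ) ^ (D + 1) →
    ((q : ℝ) ^ m * L) ^ (KN k) * t₀ ^ (2 * KN k) *
      volume.real (Etop k q m L (t₀ * (q : ℝ) ^ m)) ≤ 1 / (q : ℝ)

/-- LA: counting on lines (Parseval) for a chain, and the relation of growth and sparsity. -/
def T_LA : Prop :=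
  ∀ (k q m L : ℕ) (T ρ t₀ : ℝ) (W : ℕ → Set (X k)) (A n : ℕ → ℝ), 1 ≤ k → 2 ≤ q → 1 ≤ L →
    1 ≤ T → 1 ≤ ρ → 0 < t₀ → IsChain k q m L T ρ t₀ W A n → ∀ j < m,
      Cnt (Ln k q) (W j) (Gr q T ρ A n j) ∧ Car q (W j) (W (j + 1)) (n j) ∧
      ((W j).Nonempty → 1 ≤ Gr q T ρ A n j ∧ (q : ℝ) ≤ ρ * n j * Gr q T ρ A n j)

/-- PH: counting in a coset of `H k q 1` for a chain. -/
def T_PH : Prop :=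
  ∀ (k q m L : ℕ) (T ρ t₀ : ℝ) (W : ℕ → Set (X k)) (A n : ℕ → ℝ), 1 ≤ k → q.Prime → k < q →
    1 ≤ L → 1 ≤ T → 1 ≤ ρ → 0 < t₀ → IsChain k q m L T ρ t₀ W A n → ∀ j < m,
      Cnt (H k q 1) (W j) ((Nat.factorial k : ℝ) * Gr q T ρ A n j ^ k)

/-- VC: the last class of a chain is seen by the sum over the classes modulo `q^m`. -/
def T_VC : Prop :=
  ∀ (k q m L : ℕ) (T ρ t₀ : ℝ) (W : ℕ → Set (X k)) (A n : ℕ → ℝ), 1 ≤ k → 2 ≤ q → 1 ≤ L →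
    1 ≤ T → 1 ≤ ρ → 0 < t₀ → IsChain k q m L T ρ t₀ W A n → ∀ w ∈ W 0,
      (∏ j ∈ range m, n j) * (A m * L) ^ 2 ≤ ∑ B ∈ range (q ^ m), ‖fc (q ^ m) B L w‖ ^ 2

/-! ## D. The orbit lemma (`k = 3`) -/

/-- LS: Lemma S. -/
def T_LS : Prop :=
  ∀ (q : ℕ) [Fact q.Prime], 3 < q → ∀ (S : ZMod q → Finset (ZMod q × ZMod q)) (Y : Finset (V3 q))
    (n : ℝ), 0 < n → (∑ b, ((S b).card : ℝ)) * 2 ≤ n * (q : ℝ) ^ 2 →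
    (∀ w ∈ Y, ∃ D : Finset (ZMod q), n ≤ (D.card : ℝ) ∧ ∀ b ∈ D, (Zv w b, Zw w b) ∈ S b) →
      (Y.card : ℝ) * n ^ 2 ≤ 8 * q * ∑ b, ((S b).card : ℝ)

/-- FB: the fibres of the incidences. -/
def T_FB : Prop :=
  ∀ (q : ℕ) [Fact q.Prime], 3 < q → ∀ (A0 : Finset (V3 q × V3 q × V3 q))
    (A1 : ZMod q → Finset (ZMod q × ZMod q × ZMod q)) (kap : ZMod q → V3 q → ZMod q)
    (n F E R S : ℝ), Orbit q A0 A1 kap n F E R S →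
    (∀ (b r s : ZMod q) (Y : Finset (V3 q)), (∀ w3 ∈ Y, (∃ w2 w1, (w3, w2, w1) ∈ A0) ∧
      Zv w3 b = r ∧ Zw w3 b = s) → (Y.card : ℝ) ≤ 4 * (q * min 1 (R / n))) ∧
    (∀ (b t : ZMod q) (w3 : V3 q) (Y : Finset (V3 q)), (∀ w2 ∈ Y, (∃ w1, (w3, w2, w1) ∈ A0) ∧
      Zv w2 b + kap b w3 = t) → (Y.card : ℝ) ≤ 16 * (q * min 1 (E / n)) ^ 2)

/-- JO: Johnson's bound for the second digit. -/
def T_JO : Prop :=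
  ∀ (q : ℕ) [Fact q.Prime], 3 < q → ∀ (A0 : Finset (V3 q × V3 q × V3 q))
    (A1 : ZMod q → Finset (ZMod q × ZMod q × ZMod q)) (kap : ZMod q → V3 q → ZMod q)
    (n F E R S : ℝ), Orbit q A0 A1 kap n F E R S → 16 * q * E ≤ n ^ 2 →
    ∀ (w3 : V3 q) (Y : Finset (V3 q)), (∀ w2 ∈ Y, ∃ w1, (w3, w2, w1) ∈ A0) →
      n * (Y.card : ℝ) ≤ 2 * ∑ b : ZMod q,
        (((univ : Finset (ZMod q)).filter fun t => (Zv w3 b, Zw w3 b, t) ∈ A1 b).card : ℝ)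

/-- O0: number of alive points of an orbit. -/
def T_O0 : Prop :=
  ∀ (q : ℕ) [Fact q.Prime], 3 < q → ∀ (A0 : Finset (V3 q × V3 q × V3 q))
    (A1 : ZMod q → Finset (ZMod q × ZMod q × ZMod q)) (kap : ZMod q → V3 q → ZMod q)
    (n F E R S : ℝ), Orbit q A0 A1 kap n F E R S → 4 ≤ n →
      (A0.card : ℝ) ≤ 64 * F * (q * E / n) ^ 3 * (q * R / n) ^ 3

/-- O1: the general step. -/
def T_O1 : Prop :=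
  ∀ (q : ℕ) [Fact q.Prime], 3 < q → ∀ (A0 : Finset (V3 q × V3 q × V3 q))
    (A1 : ZMod q → Finset (ZMod q × ZMod q × ZMod q)) (kap : ZMod q → V3 q → ZMod q)
    (n F E R S : ℝ), Orbit q A0 A1 kap n F E R S →
      n * (A0.card : ℝ) ≤ 64 * F * (q * min 1 (E / n)) ^ 2 * (q * min 1 (R / n)) *
        ∑ b, ((A1 b).card : ℝ)

/-- O2: the step with Johnson's bound. -/
def T_O2 : Prop :=
  ∀ (q : ℕ) [Fact q.Prime], 3 < q → ∀ (A0 : Finset (V3 q × V3 q × V3 q))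
    (A1 : ZMod q → Finset (ZMod q × ZMod q × ZMod q)) (kap : ZMod q → V3 q → ZMod q)
    (n F E R S : ℝ), Orbit q A0 A1 kap n F E R S → 16 * q * E ≤ n ^ 2 →
      n * (A0.card : ℝ) ≤ 8 * F * (q * min 1 (R / n)) * ∑ b, ((A1 b).card : ℝ)

/-- O3: the step with Lemma S. -/
def T_O3 : Prop :=
  ∀ (q : ℕ) [Fact q.Prime], 3 < q → ∀ (A0 : Finset (V3 q × V3 q × V3 q))
    (A1 : ZMod q → Finset (ZMod q × ZMod q × ZMod q)) (kap : ZMod q → V3 q → ZMod q)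
    (n F E R S : ℝ), Orbit q A0 A1 kap n F E R S → 16 * q * E ≤ n ^ 2 → 2 * S ≤ n →
      n ^ 3 * (A0.card : ℝ) ≤ 16 * F * q ^ 2 * E * ∑ b, ((A1 b).card : ℝ)

/-- OC: the orbit and its columns in digits. -/
def T_OC : Prop :=
  ∀ (q : ℕ) [Fact q.Prime], 3 < q →
    (∀ (b : ZMod q) (w : V3 q × V3 q × V3 q), phi q b.val (orb q (fun i => (w.1 i).val)
        (fun i => (w.2.1 i).val) (fun i => (w.2.2 i).val)) =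
      cel q (Zv w.1 b).val (Zw w.1 b).val (Zv w.2.1 b + kaps q b w.1).val) ∧
    (∀ (W : Set (X 3)) (a : X 3) (Y : Finset (X 3)), (∀ y ∈ Y, y ∈ HF 3 q 3 ∧ a + y ∈ W) →
      Y.card ≤ (A0s q W a).card) ∧
    (∀ (W : Set (X 3)) (a : X 3) (b : ZMod q), ∃ Y : Finset (X 3),
      Y ⊆ (HF 3 q 3).image (fun h => phi q b.val (a + h)) ∧ (∀ y ∈ Y, y ∈ W) ∧
      (A1s q W a b).card ≤ Y.card)

/-- OS: the hypotheses of the orbit lemma hold in the torus. -/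
def T_OS : Prop :=
  ∀ (q : ℕ) [Fact q.Prime], 3 < q → ∀ (W : ℕ → Set (X 3)) (G₀ G₁ G₂ n₀ n₁ : ℝ), 1 ≤ G₀ → 1 ≤ G₁ →
    1 ≤ G₂ → 1 ≤ n₀ → n₀ ≤ q → 1 ≤ n₁ → n₁ ≤ q →
    Cnt (H 3 q 1) (W 0) (6 * G₀ ^ 3) → Cnt (H 3 q 1) (W 1) (6 * G₁ ^ 3) →
    Cnt (Ln 3 q) (W 1) G₁ → Cnt (Ln 3 q) (W 2) G₂ → Car q (W 0) (W 1) n₀ →
    Car q (W 1) (W 2) n₁ →
    ∀ a : X 3, Orbit q (A0s q (W 0) a) (A1s q (W 1) a) (kaps q) n₀ (6 * G₀ ^ 3) G₁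
      (q * G₂ / n₁) (6 * G₁ ^ 3)

/-- ST: the three step inequalities in the torus. -/
def T_ST : Prop :=
  ∀ (q : ℕ), q.Prime → 3 < q → ∀ (W : ℕ → Set (X 3)) (G₀ G₁ G₂ n₀ n₁ : ℝ),
    MeasurableSet (W 0) → MeasurableSet (W 1) → 1 ≤ G₀ → 1 ≤ G₁ →
    1 ≤ G₂ → 1 ≤ n₀ → n₀ ≤ q → 1 ≤ n₁ → n₁ ≤ q →
    Cnt (H 3 q 1) (W 0) (6 * G₀ ^ 3) → Cnt (H 3 q 1) (W 1) (6 * G₁ ^ 3) →
    Cnt (Ln 3 q) (W 1) G₁ → Cnt (Ln 3 q) (W 2) G₂ → Car q (W 0) (W 1) n₀ →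
    Car q (W 1) (W 2) n₁ →
    ((q : ℝ) ^ 6 * volume.real (W 0) ≤ 400 * G₀ ^ 3 * (q * min 1 (G₁ / n₀)) ^ 2 *
      (q * min 1 (q * G₂ / (n₁ * n₀))) * (q / n₀) * volume.real (W 1)) ∧
    (16 * q * G₁ ≤ n₀ ^ 2 → (q : ℝ) ^ 6 * volume.real (W 0) ≤ 400 * G₀ ^ 3 *
      (q * min 1 (q * G₂ / (n₁ * n₀))) * (q / n₀) * volume.real (W 1)) ∧
    (16 * q * G₁ ≤ n₀ ^ 2 → 12 * G₁ ^ 3 ≤ n₀ → (q : ℝ) ^ 6 * volume.real (W 0) ≤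
      400 * G₀ ^ 3 * G₁ * (q / n₀) ^ 3 * volume.real (W 1))

/-! ## E. The game (`k = 3`) -/

/-- GA: the game. -/
def T_GA : Prop :=
  ∀ c₁ : ℝ, 0 < c₁ → c₁ ≤ 1 → ∃ (δ D₀ : ℝ), 0 < δ ∧ ∀ D : ℝ, D₀ ≤ D → ∃ kap : ℝ, 0 < kap ∧
    ∀ (m : ℕ) (g p : ℕ → ℝ), (m : ℝ) ≤ 10 * D → (∀ j, 0 ≤ g j) → (∀ j, 0 ≤ p j ∧ p j ≤ 1) →
    (∀ j < m, p j ≤ g j + kap) → D - 4 ≤ ∑ j ∈ range m, (1 - g j) → (∃ l < 3, c₁ ≤ g l) →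
    ∃ (n' : ℕ) (x : ℕ → ℝ), n' + 2 ≤ m ∧ (∀ j < n', Opt g p kap j (x j)) ∧
      δ ≤ ∑ j ∈ range n', x j

/-- BD: chains with growth in the first three windows are rare. -/
def T_BD : Prop :=
  ∀ c₁ : ℝ, 0 < c₁ → c₁ ≤ 1 → ∃ (δ D₀ : ℝ), 0 < δ ∧ ∀ D : ℝ, D₀ ≤ D → ∃ ε₀ : ℝ, 0 < ε₀ ∧
    ∀ (ε T : ℝ) (m : ℕ), 0 < ε → ε ≤ ε₀ → 1 ≤ T → (m : ℝ) ≤ 10 * D → ∃ q₀ : ℕ,
    ∀ (q L : ℕ) (t₀ : ℝ) (W : ℕ → Set (X 3)) (A n : ℕ → ℝ), q₀ ≤ q → q.Prime → 1 ≤ L → 0 < t₀ →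
      (q : ℝ) ^ (D - 1) ≤ ((q : ℝ) ^ m * L) * t₀ ^ 2 →
      ((q : ℝ) ^ m * L) * t₀ ^ 2 ≤ (q : ℝ) ^ (D + 1) →
      (8 * D + 8 ≤ m ∨ L ≤ q ^ 2) →
      IsChain 3 q m L T ((q : ℝ) ^ ε) t₀ W A n →
      (∃ l < 3, (q : ℝ) ^ c₁ ≤ Gr q T ((q : ℝ) ^ ε) A n l) →
      ((q : ℝ) ^ m * L) ^ 6 * t₀ ^ 12 * volume.real (W 0) ≤ (q : ℝ) ^ (-δ)

/-- GC: a good chain has few points in every orbit. -/
def T_GC : Prop :=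
  ∀ (c₁ ε T : ℝ) (m : ℕ), 0 < c₁ → c₁ ≤ 1 / 10 → 0 < ε → ε ≤ c₁ → 1 ≤ T → 3 ≤ m → ∃ q₀ : ℕ,
    ∀ (q L : ℕ) (t₀ : ℝ) (W : ℕ → Set (X 3)) (A n : ℕ → ℝ), q₀ ≤ q → q.Prime → 1 ≤ L → 0 < t₀ →
      IsChain 3 q m L T ((q : ℝ) ^ ε) t₀ W A n →
      (∀ l < 3, Gr q T ((q : ℝ) ^ ε) A n l ≤ (q : ℝ) ^ c₁) →
      Cnt (H 3 q 3) (W 0) ((q : ℝ) ^ (30 * c₁))

/-! ## F. The good part -/

open Classical in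
/-- OI: the orbit inequality for the good points. -/
def T_OI : Prop :=
  ∀ k : ℕ, 3 ≤ k → ∃ (C : ℝ) (q₀ : ℕ), 0 ≤ C ∧ ∀ (q L : ℕ) (M R : ℝ) (Gd : Set (X k)),
    q₀ ≤ q → q.Prime → 1 ≤ L → 0 < M → 1 ≤ R → R ≤ (q : ℝ) ^ (1 / (8 * (k : ℝ))) →
    (∀ a ∈ Gd, 1 / 2 ≤ M * ‖u (q * L) a‖ ^ 2) →
    (∀ a ∈ Gd, ∀ b < q, M * ‖u L (phi q b a)‖ ^ 2 ≤ (q : ℝ) ^ (3 / 2 : ℝ)) →
    Cnt (H k q k) Gd R →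
    ∀ a : X k, ∑ h ∈ HF k q k,
        (if a + h ∈ Gd then max (M * ‖u (q * L) (a + h)‖ ^ 2 - 1 / 2) 0 else 0) ≤
      (1 / (q : ℝ)) * ∑ b ∈ range q, ∑ v ∈ (HF k q k).image (fun h => phi q b (a + h)),
        max ((1 + C * (q : ℝ) ^ (-(1 / (8 * (k : ℝ))))) * M * ‖u L v‖ ^ 2 - 1 / 2) 0

/-- GO: the integrated inequality for the good points. -/
def T_GO : Prop :=
  ∀ k : ℕ, 3 ≤ k → ∃ (C : ℝ) (q₀ : ℕ), 0 ≤ C ∧ ∀ (q L : ℕ) (M R : ℝ) (Gd : Set (X k)),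
    q₀ ≤ q → q.Prime → 1 ≤ L → 0 < M → 1 ≤ R → R ≤ (q : ℝ) ^ (1 / (8 * (k : ℝ))) →
    MeasurableSet Gd → (∀ a ∈ Gd, 1 / 2 ≤ M * ‖u (q * L) a‖ ^ 2) →
    (∀ a ∈ Gd, ∀ b < q, M * ‖u L (phi q b a)‖ ^ 2 ≤ (q : ℝ) ^ (3 / 2 : ℝ)) →
    Cnt (H k q k) Gd R →
    (q : ℝ) ^ (KN k) * ∫ a in Gd, max (M * ‖u (q * L) a‖ ^ 2 - 1 / 2) 0 ≤
      ∫ a : X k, max ((1 + C * (q : ℝ) ^ (-(1 / (8 * (k : ℝ))))) * M * ‖u L a‖ ^ 2 - 1 / 2) 0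

/-- SE: one step of the recursion for lengths divisible by `q^m`. -/
def T_SE : Prop :=
  ∃ (δ D₀ : ℝ), 0 < δ ∧ ∀ D : ℝ, D₀ ≤ D → ∃ q₀ : ℕ, ∀ (q m L : ℕ) (M : ℝ), q₀ ≤ q → q.Prime →
    1 ≤ L → 1 ≤ M → 4 ≤ m → (m : ℝ) ≤ 10 * D → (8 * D + 8 ≤ m ∨ L ≤ q ^ 2) →
    (q : ℝ) ^ (D - 1) ≤ ((q : ℝ) ^ m * L) / (2 * M) →
    ((q : ℝ) ^ m * L) / (2 * M) ≤ (q : ℝ) ^ (D + 1) →
    SM 3 M (q ^ m * L) ≤ SM 3 M (q ^ (m - 1) * L) + (q : ℝ) ^ (-δ)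

/-- RO: rounding the length. -/
def T_RO : Prop :=
  ∀ (k : ℕ) (D : ℝ), 3 ≤ k → ∃ q₀ : ℕ, ∀ (q m L N : ℕ) (M : ℝ), q₀ ≤ q → q ≤ L → 1 ≤ M →
    q ^ m * L ≤ N → N < q ^ m * (L + 1) → (N : ℝ) / M ≤ (q : ℝ) ^ (D + 1) →
    SM k M N ≤ SM k M (q ^ m * L) + (q : ℝ) ^ (-(1 / 8 : ℝ))

/-- OX: one step of the recursion. -/
def T_OX : Prop :=
  ∃ (c c' y₀ C : ℝ), 0 < c ∧ c < 1 ∧ 0 < c' ∧ 0 ≤ C ∧ ∀ (M : ℝ) (N : ℕ), 1 ≤ M →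
    y₀ ≤ Real.log (N / M) → ∃ N' : ℕ, N' < N ∧ M ≤ N' ∧
      Real.log (N' / M) ≤ (1 - c) * Real.log (N / M) ∧
      SM 3 M N ≤ SM 3 M N' + C * Real.exp (-(c' * Real.log (N / M)))

/-- IT: the recursion is summed. -/
def T_IT : Prop :=
  ∃ C : ℝ, 0 ≤ C ∧ ∀ (M : ℝ) (N : ℕ), 1 ≤ M → M ≤ N → SM 3 M N ≤ C

/-- FI: the theorem. -/
def T_FI : Prop :=
  ∃ C : ℝ, ∀ N : ℕ, 1 ≤ N →
    ((Pool.Agent.H22.VM.sols 6 3 N).card : ℝ) ≤ C * (N : ℝ) ^ 6 * (1 + Real.log N)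

end Pool.Agent.H24.CL
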