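import Pool.Agent.H24.CL.DefsK
import Pool.Agent.H24.CL.Targets

/-!
# The critical mean value up to one logarithm for every `k ≥ 3`: targets (helper24, helper31)

Every `TK_X` is a proposition to be proved in a module of its own.
-/

set_option autoImplicit false

open Finset MeasureTheory

namespace Pool.Agent.H24.CL

/-! ## A. Digits -/

/-- HM: the maps `phi` and the torsion subgroups. -/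
def TK_HM : Prop :=
  ∀ (k q : ℕ), 1 ≤ q →
    (∀ (r s : ℕ) (a : X k), r ≤ s → a ∈ H k q r → a ∈ H k q s) ∧
    (∀ (c : List ℕ) (r : ℕ) (a : X k), a ∈ H k q (r + c.length) → Ch q c a ∈ H k q r) ∧
    (∀ (c : List ℕ) (a : X k), a ∈ H k q c.length → Ch q c a = 0) ∧
    (∀ (c : List ℕ) (a : X k), 1 ≤ c.length → a ∈ H k q (c.length + 1) → Ch q c a ∈ Ln k q) ∧
    (∀ (c c' : List ℕ) (a : X k), Ch q (c ++ c') a = Ch q c' (Ch q c a))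

/-- VL: the vanishing lemma. -/
def TK_VL : Prop :=
  ∀ (k q : ℕ), q.Prime → k < q → ∀ (r j b₁ : ℕ) (γ h : X k) (D : Finset ℕ), 1 ≤ r → r < j → j ≤ k →
    b₁ < q → γ ∈ H k q j → h ∈ H k q r → phi q b₁ (γ - h) = 0 →
    (∀ b ∈ D, b < q ∧ b ≠ b₁ ∧ ∃ c : List ℕ, c.length + 2 = j ∧ Ch q (b :: c) γ = 0) →
    k + 1 ≤ D.card + j → γ ∈ H k q (j - 1)

/-- VF: the free vanishing lemma. -/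
def TK_VF : Prop :=
  ∀ (k q : ℕ), q.Prime → k < q → ∀ (j : ℕ) (γ : X k) (D : Finset ℕ), 2 ≤ j → γ ∈ H k q j →
    (∀ b ∈ D, b < q ∧ ∃ c : List ℕ, c.length + 2 = j ∧ Ch q (b :: c) γ = 0) →
    k ≤ D.card → γ ∈ H k q (j - 1)

/-- KR: the kernel of `phi q b` in `H k q r`. -/
def TK_KR : Prop :=
  ∀ (k q b r : ℕ), 1 ≤ q → r ≤ k → ∀ Y : Finset (X k),
    (∀ y ∈ Y, y ∈ H k q r ∧ phi q b y = 0) → Y.card ≤ q ^ kr k r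

/-! ## B. The central lemma -/

/-- PP: one popular path. -/
def TK_PP : Prop :=
  ∀ (k q r e : ℕ) (W : ℕ → Set (X k)) (R : ℕ → ℕ) (n : ℕ → ℝ) (β : ℝ) (Y : Finset (X k))
    (Dg : X k → Finset ℕ), 1 ≤ q → 2 ≤ e → 0 < β →
    (∀ l, 1 ≤ l → l + 2 ≤ e → 0 < n l ∧ Car q (W l) (W (l + 1)) (n l)) →
    (∀ y ∈ Y, Dg y ⊆ range q ∧ β ≤ ((Dg y).card : ℝ) ∧
      ∀ b ∈ Dg y, ∃ h ∈ H k q r, phi q b (y + h) ∈ W 1) →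
    ∃ (Y' : Finset (X k)) (p : X k → List ℕ) (s : X k → X k), Y' ⊆ Y ∧
      (∀ y ∈ Y', (p y).length = e - 1 ∧ (∀ b ∈ p y, b < q) ∧ (∃ b ∈ Dg y, (p y).head? = some b) ∧
        s y ∈ H k q r ∧ ∀ t, 1 ≤ t → t + 1 ≤ e → Ch q ((p y).take t) (y + s y) ∈ W t) ∧
      (∀ y ∈ Y', ∀ y' ∈ Y', (p y).head? = (p y').head? ∧
        ∀ l, 1 ≤ l → l + 2 ≤ e → max 1 (R l) + l < e → (p y)[l]? = (p y')[l]?) ∧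
      (Y.card : ℝ) ≤ Y'.card * (((q : ℝ) / β) *
        ∏ l ∈ (Icc 1 (e - 2)).filter (fun l => max 1 (R l) + l < e), ((q : ℝ) / n l))

/-- PA: all popular paths. -/
def TK_PA : Prop :=
  ∀ k : ℕ, 3 ≤ k → ∃ C : ℝ, 1 ≤ C ∧ ∀ (q : ℕ) (W : ℕ → Set (X k)) (R : ℕ → ℕ) (n G : ℕ → ℝ) (B : ℝ),
    q.Prime → k < q → Lev k q W R n G B → ∀ (r b₁ : ℕ) (β : ℝ) (Y : Finset (X k)), 1 ≤ r → r ≤ k →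
    2 * (k : ℝ) ≤ β →
    (∀ y ∈ Y, ∃ D : Finset ℕ, D ⊆ range q ∧ (∀ b ∈ D, ∃ h ∈ H k q r, phi q b (y + h) ∈ W 1) ∧
      β ≤ (D.card : ℝ)) →
    ∃ (Y' : Finset (X k)) (hd : ℕ → ℕ) (p : ℕ → X k → List ℕ) (s : ℕ → X k → X k), Y' ⊆ Y ∧
      Paths k q r b₁ W R Y' hd p s ∧
      (Y.card : ℝ) ≤ Y'.card * (C * ((q : ℝ) / β) ^ (k - r) *
        ∏ l ∈ Icc 1 (k - 2), ((q : ℝ) / n l) ^ wt k r (R l) l)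

/-- IN: counting the points with common recorded paths, digit by digit. -/
def TK_IN : Prop :=
  ∀ k : ℕ, 3 ≤ k → ∃ c : ℕ, ∀ (q : ℕ) (W : ℕ → Set (X k)) (R : ℕ → ℕ) (n G : ℕ → ℝ) (B : ℝ),
    q.Prime → k < q → Lev k q W R n G B → ∀ (r b₁ : ℕ) (Y : Finset (X k)) (hd : ℕ → ℕ)
    (p : ℕ → X k → List ℕ) (s : ℕ → X k → X k), 1 ≤ r → r ≤ k → b₁ < q →
    Paths k q r b₁ W R Y hd p s →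
    (∀ y ∈ Y, ∀ y' ∈ Y, y - y' ∈ H k q k ∧ ∃ h ∈ H k q r, phi q b₁ (y - y' - h) = 0) →
    (∀ y ∈ Y, ∀ y' ∈ Y, y - y' ∈ H k q r → y = y') →
    (Y.card : ℝ) ≤ B ^ c * ∏ l ∈ Icc r (k - 1), G l ^ (k - l)

/-- ZL: the central lemma. -/
def TK_ZL : Prop :=
  ∀ k : ℕ, 3 ≤ k → ∃ (C : ℝ) (c : ℕ), 1 ≤ C ∧ ∀ (q : ℕ) (W : ℕ → Set (X k)) (R : ℕ → ℕ)
    (n G : ℕ → ℝ) (B : ℝ), q.Prime → k < q → Lev k q W R n G B →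
    ∀ (r b₁ : ℕ) (β : ℝ) (Y : Finset (X k)), 1 ≤ r → r ≤ k → b₁ < q → 2 * (k : ℝ) ≤ β →
    (∀ y ∈ Y, ∃ D : Finset ℕ, D ⊆ range q ∧ (∀ b ∈ D, ∃ h ∈ H k q r, phi q b (y + h) ∈ W 1) ∧
      β ≤ (D.card : ℝ)) →
    (∀ y ∈ Y, ∀ y' ∈ Y, y - y' ∈ H k q k ∧ ∃ h ∈ H k q r, phi q b₁ (y - y' - h) = 0) →
    (∀ y ∈ Y, ∀ y' ∈ Y, y - y' ∈ H k q r → y = y') →
    (Y.card : ℝ) ≤ C * B ^ c * ((q : ℝ) / β) ^ (k - r) * ZB k q r R n G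

/-- FR: the free form with `k` full paths. -/
def TK_FR : Prop :=
  ∀ k : ℕ, 3 ≤ k → ∃ C : ℝ, 1 ≤ C ∧ ∀ (q : ℕ) (W : ℕ → Set (X k)) (n G : ℕ → ℝ) (β : ℝ)
    (Y : Finset (X k)), q.Prime → k < q →
    (∀ l, 1 ≤ l → l + 2 ≤ k → 1 ≤ n l ∧ Car q (W l) (W (l + 1)) (n l)) →
    (∀ l, 1 ≤ l → l + 1 ≤ k → 1 ≤ G l ∧ Cnt (Ln k q) (W l) (G l)) → 2 * (k : ℝ) ≤ β →
    (∀ y ∈ Y, ∃ D : Finset ℕ, D ⊆ range q ∧ (∀ b ∈ D, phi q b y ∈ W 1) ∧ β ≤ (D.card : ℝ)) →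
    (∀ y ∈ Y, ∀ y' ∈ Y, y - y' ∈ H k q k) → (∀ y ∈ Y, ∀ y' ∈ Y, y - y' ∈ H k q 1 → y = y') →
    (Y.card : ℝ) ≤ C * ((q : ℝ) / β) ^ k * (∏ l ∈ Icc 1 (k - 2), ((q : ℝ) / n l) ^ k) *
      ∏ l ∈ Icc 1 (k - 1), G l ^ k

/-! ## C. Local counts and averaging -/

/-- AV: averaging over an orbit. -/
def TK_AV : Prop :=
  ∀ (k q r : ℕ), 1 ≤ q → r ≤ k → ∀ (W V : Set (X k)) (E Z : ℝ), MeasurableSet W → MeasurableSet V →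
    0 ≤ E → 0 ≤ Z →
    (∀ (a : X k) (Y : Finset (X k)), (∀ y ∈ Y, y ∈ W ∧ y - a ∈ H k q r) →
      (Y.card : ℝ) ≤ E * ∑ b ∈ Bs k q r W V a, (cc k q r b V a : ℝ)) →
    (∀ b < q, ∀ Y : Finset (X k), (∀ y ∈ Y, b ∈ Bs k q r W V y) →
      (∀ y ∈ Y, ∀ y' ∈ Y, y - y' ∈ H k q k ∧ ∃ h ∈ H k q r, phi q b (y - y' - h) = 0) →
      (∀ y ∈ Y, ∀ y' ∈ Y, y - y' ∈ H k q r → y = y') → (Y.card : ℝ) ≤ Z) →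
    (q : ℝ) ^ (KN k) * volume.real W ≤ E * (q * Z) * volume.real V

/-- JO: Johnson's bound in a coset of `H k q 2`. -/
def TK_JO : Prop :=
  ∀ (k q : ℕ), 2 ≤ k → q.Prime → k < q → ∀ (W V : Set (X k)) (n G : ℝ), 1 ≤ n → 1 ≤ G →
    Cnt (Ln k q) V G → Car q W V n → 4 * ((k : ℝ) - 1) * (q * G) ≤ n ^ 2 → ∀ a : X k,
    (∑ b ∈ Bs k q 2 W V a, (cc k q 2 b V a : ℝ) ≤ q * G) ∧
    ∀ Y : Finset (X k), (∀ y ∈ Y, y ∈ W ∧ y - a ∈ H k q 2) →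
      (∀ y ∈ Y, ∀ y' ∈ Y, y - y' ∈ H k q 1 → y = y') →
      n * (Y.card : ℝ) ≤ 2 * ∑ b ∈ Bs k q 2 W V a, (cc k q 2 b V a : ℝ)

/-- LS: Lemma S. -/
def TK_LS : Prop :=
  ∀ (k q : ℕ) [Fact q.Prime], 3 ≤ k → k < q → ∀ (S : ZMod q → Finset (ZMod q × ZMod q))
    (Y : Finset (Fin k → ZMod q)) (n : ℝ), 0 < n →
    (∑ b, ((S b).card : ℝ)) * 2 ≤ n * (q : ℝ) ^ 2 →
    (∀ w ∈ Y, ∃ D : Finset (ZMod q), n ≤ (D.card : ℝ) ∧ ∀ b ∈ D, (Zvk w b, Zwk w b) ∈ S b) →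
      (Y.card : ℝ) * n ^ 2 ≤ 4 * ((k : ℝ) - 1) * (q : ℝ) ^ (k - 2) * ∑ b, ((S b).card : ℝ)

/-- SL: the local count in a coset of `H k q 3`. -/
def TK_SL : Prop :=
  ∀ (k q : ℕ), 3 ≤ k → q.Prime → k < q → ∀ (W V : Set (X k)) (n G F : ℝ), 1 ≤ n → 1 ≤ G → 1 ≤ F →
    Cnt (Ln k q) V G → Cnt (H k q 1) V ((Nat.factorial k : ℝ) * G ^ k) → Cnt (H k q 1) W F →
    Car q W V n → 4 * ((k : ℝ) - 1) * (q * G) ≤ n ^ 2 →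
    2 * (Nat.factorial k : ℝ) * G ^ k ≤ n → ∀ (a : X k) (Y : Finset (X k)),
    (∀ y ∈ Y, y ∈ W ∧ y - a ∈ H k q 3) →
      n ^ 3 * (Y.card : ℝ) ≤ 8 * ((k : ℝ) - 1) * F * G * (q : ℝ) ^ (k - 1) *
        ∑ b ∈ Bs k q 3 W V a, (cc k q 3 b V a : ℝ)

/-! ## D. The step inequalities -/

/-- S1: the general step. -/
def TK_S1 : Prop :=
  ∀ k : ℕ, 3 ≤ k → ∃ (C : ℝ) (c : ℕ), 1 ≤ C ∧ ∀ (q : ℕ) (W : ℕ → Set (X k)) (R : ℕ → ℕ)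
    (n G : ℕ → ℝ) (B : ℝ), q.Prime → k < q → MeasurableSet (W 0) → MeasurableSet (W 1) →
    Lev k q W R n G B → n 0 ≤ q → 1 ≤ G 0 → Car q (W 0) (W 1) (n 0) →
    Cnt (H k q 1) (W 0) ((Nat.factorial k : ℝ) * G 0 ^ k) → 2 * (k : ℝ) ≤ n 0 →
    (q : ℝ) ^ (KN k) * volume.real (W 0) ≤ C * B ^ c * G 0 ^ k * ((q : ℝ) / n 0) ^ k *
      ZB k q 1 R n G * volume.real (W 1)

/-- S2: the step with Johnson's bound. -/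
def TK_S2 : Prop :=
  ∀ k : ℕ, 3 ≤ k → ∃ (C : ℝ) (c : ℕ), 1 ≤ C ∧ ∀ (q : ℕ) (W : ℕ → Set (X k)) (R : ℕ → ℕ)
    (n G : ℕ → ℝ) (B : ℝ), q.Prime → k < q → MeasurableSet (W 0) → MeasurableSet (W 1) →
    Lev k q W R n G B → n 0 ≤ q → 1 ≤ G 0 → Car q (W 0) (W 1) (n 0) →
    Cnt (H k q 1) (W 0) ((Nat.factorial k : ℝ) * G 0 ^ k) → 2 * (k : ℝ) ≤ n 0 →
    4 * ((k : ℝ) - 1) * (q * G 1) ≤ n 0 ^ 2 →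
    (q : ℝ) ^ (KN k) * volume.real (W 0) ≤ C * B ^ c * G 0 ^ k * ((q : ℝ) / n 0) ^ (k - 1) *
      ZB k q 2 R n G * volume.real (W 1)

/-- S3: the step with Lemma S. -/
def TK_S3 : Prop :=
  ∀ k : ℕ, 3 ≤ k → ∃ (C : ℝ) (c : ℕ), 1 ≤ C ∧ ∀ (q : ℕ) (W : ℕ → Set (X k)) (R : ℕ → ℕ)
    (n G : ℕ → ℝ) (B : ℝ), q.Prime → k < q → MeasurableSet (W 0) → MeasurableSet (W 1) →
    Lev k q W R n G B → n 0 ≤ q → 1 ≤ G 0 → Car q (W 0) (W 1) (n 0) →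
    Cnt (H k q 1) (W 0) ((Nat.factorial k : ℝ) * G 0 ^ k) →
    Cnt (H k q 1) (W 1) ((Nat.factorial k : ℝ) * G 1 ^ k) → 2 * (k : ℝ) ≤ n 0 →
    4 * ((k : ℝ) - 1) * (q * G 1) ≤ n 0 ^ 2 → 2 * (Nat.factorial k : ℝ) * G 1 ^ k ≤ n 0 →
    (q : ℝ) ^ (KN k) * volume.real (W 0) ≤ C * B ^ c * G 0 ^ k * G 1 * (q : ℝ) ^ (k - 3) *
      ((q : ℝ) / n 0) ^ k * ZB k q 3 R n G * volume.real (W 1)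

/-- S4: the step for a level with few positions. -/
def TK_S4 : Prop :=
  ∀ k : ℕ, 3 ≤ k → ∃ (C : ℝ) (c : ℕ), 1 ≤ C ∧ ∀ (q : ℕ) (W : ℕ → Set (X k)) (R : ℕ → ℕ)
    (n G : ℕ → ℝ) (B : ℝ), q.Prime → k < q → MeasurableSet (W 0) → MeasurableSet (W 1) →
    Lev k q W R n G B → Car q (W 0) (W 1) 1 → ∀ r : ℕ, 1 ≤ r → r ≤ k →
    (r < k → Own k q r (W 0) (W 1) (2 * (k : ℝ))) →
    (q : ℝ) ^ (KN k) * volume.real (W 0) ≤ C * B ^ c * (q : ℝ) ^ (1 + kr k r + (k - r)) *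
      ZB k q r R n G * volume.real (W 1)

/-! ## E. Chains and the game -/

/-- TY: every alive point lies in the first set of one of boundedly many labelled chains, or some
descendant is too high. -/
def TK_TY : Prop :=
  ∀ (k m : ℕ) (ε : ℝ), 1 ≤ k → 0 < ε → ∃ (TT : ℕ) (T : ℝ), 1 ≤ T ∧ ∀ (q L : ℕ) (t₀ : ℝ),
    2 ≤ q → 1 ≤ L → 0 < t₀ →
    ∃ (W : Fin TT → ℕ → Set (X k)) (A n : Fin TT → ℕ → ℝ) (R : Fin TT → ℕ → ℕ),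
      (∀ c, IsChain k q m L T ((q : ℝ) ^ ε) t₀ (W c) (A c) (n c)) ∧
      (∀ c, IsLab k q m ((q : ℝ) ^ ε) (W c) (n c) (R c)) ∧
      {a : X k | t₀ ≤ ‖u (q ^ m * L) a‖} ⊆
        (⋃ c, W c 0) ∪ Etop k q m L (t₀ * (q : ℝ) ^ m)

/-- GA: the game. -/
def TK_GA : Prop :=
  ∀ k : ℕ, 3 ≤ k → ∀ c₁ : ℝ, 0 < c₁ → c₁ ≤ 1 → ∃ (δ D₀ : ℝ), 0 < δ ∧ ∀ D : ℝ, D₀ ≤ D →
    ∃ kap : ℝ, 0 < kap ∧ ∀ (m : ℕ) (g p : ℕ → ℝ) (R : ℕ → ℕ), (m : ℝ) ≤ ((KN k : ℝ) + 4) * D →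
    (∀ j, 0 ≤ g j) → (∀ j, 0 ≤ p j ∧ p j ≤ 1) → (∀ j, R j ≤ k) →
    (∀ j < m, 1 ≤ R j → 1 - kap ≤ p j) →
    (∀ j < m, p j ≤ g j + kap) → D - 4 ≤ ∑ j ∈ range m, (1 - g j) → (∃ l < k, c₁ ≤ g l) →
    ∃ (n' : ℕ) (x : ℕ → ℝ), n' + (k - 1) ≤ m ∧ (∀ j < n', OptK k R g p kap j (x j)) ∧
      δ ≤ ∑ j ∈ range n', x j

/-- BD: chains with growth in the first `k` windows are rare. -/
def TK_BD : Prop :=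
  ∀ k : ℕ, 3 ≤ k → ∀ c₁ : ℝ, 0 < c₁ → c₁ ≤ 1 → ∃ (δ D₀ : ℝ), 0 < δ ∧ ∀ D : ℝ, D₀ ≤ D →
    ∃ ε₀ : ℝ, 0 < ε₀ ∧
    ∀ (ε T : ℝ) (m : ℕ), 0 < ε → ε ≤ ε₀ → 1 ≤ T → (m : ℝ) ≤ ((KN k : ℝ) + 4) * D → ∃ q₀ : ℕ,
    ∀ (q L : ℕ) (t₀ : ℝ) (W : ℕ → Set (X k)) (A n : ℕ → ℝ) (R : ℕ → ℕ), q₀ ≤ q → q.Prime → 1 ≤ L →
      0 < t₀ →
      (q : ℝ) ^ (D - 1) ≤ ((q : ℝ) ^ m * L) * t₀ ^ 2 →
      ((q : ℝ) ^ m * L) * t₀ ^ 2 ≤ (q : ℝ) ^ (D + 1) →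
      (((KN k : ℝ) + 2) * (D + 1) ≤ m ∨ L ≤ q ^ 2) →
      IsChain k q m L T ((q : ℝ) ^ ε) t₀ W A n → IsLab k q m ((q : ℝ) ^ ε) W n R →
      (∃ l < k, (q : ℝ) ^ c₁ ≤ Gr q T ((q : ℝ) ^ ε) A n l) →
      ((q : ℝ) ^ m * L) ^ (KN k) * t₀ ^ (2 * KN k) * volume.real (W 0) ≤ (q : ℝ) ^ (-δ)

/-- GC: a good chain has few points in every orbit. -/
def TK_GC : Prop :=
  ∀ (k : ℕ) (c₁ ε T : ℝ) (m : ℕ), 3 ≤ k → 0 < c₁ → c₁ ≤ 1 / 10 → 0 < ε → ε ≤ c₁ → 1 ≤ T → k ≤ m →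
    ∃ q₀ : ℕ,
    ∀ (q L : ℕ) (t₀ : ℝ) (W : ℕ → Set (X k)) (A n : ℕ → ℝ), q₀ ≤ q → q.Prime → 1 ≤ L → 0 < t₀ →
      IsChain k q m L T ((q : ℝ) ^ ε) t₀ W A n →
      (∀ l < k, Gr q T ((q : ℝ) ^ ε) A n l ≤ (q : ℝ) ^ c₁) →
      Cnt (H k q k) (W 0) ((q : ℝ) ^ (4 * (k : ℝ) ^ 2 * c₁))

/-! ## F. The recursion -/

/-- SE: one step of the recursion for lengths divisible by `q^m`. -/
def TK_SE : Prop :=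
  ∀ k : ℕ, 3 ≤ k → ∃ (δ D₀ : ℝ), 0 < δ ∧ ∀ D : ℝ, D₀ ≤ D → ∃ q₀ : ℕ, ∀ (q m L : ℕ) (M : ℝ),
    q₀ ≤ q → q.Prime → 1 ≤ L → 1 ≤ M → k + 1 ≤ m → (m : ℝ) ≤ ((KN k : ℝ) + 4) * D →
    (((KN k : ℝ) + 2) * (D + 1) ≤ m ∨ L ≤ q ^ 2) →
    (q : ℝ) ^ (D - 1) ≤ ((q : ℝ) ^ m * L) / (2 * M) →
    ((q : ℝ) ^ m * L) / (2 * M) ≤ (q : ℝ) ^ (D + 1) →
    SM k M (q ^ m * L) ≤ SM k M (q ^ (m - 1) * L) + (q : ℝ) ^ (-δ)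

/-- OX: one step of the recursion. -/
def TK_OX : Prop :=
  ∀ k : ℕ, 3 ≤ k → ∃ (c c' y₀ C : ℝ), 0 < c ∧ c < 1 ∧ 0 < c' ∧ 0 ≤ C ∧ ∀ (M : ℝ) (N : ℕ), 1 ≤ M →
    y₀ ≤ Real.log (N / M) → ∃ N' : ℕ, N' < N ∧ M ≤ N' ∧
      Real.log (N' / M) ≤ (1 - c) * Real.log (N / M) ∧
      SM k M N ≤ SM k M N' + C * Real.exp (-(c' * Real.log (N / M)))

/-- IT: the recursion is summed. -/
def TK_IT : Prop :=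
  ∀ k : ℕ, 3 ≤ k → ∃ C : ℝ, 0 ≤ C ∧ ∀ (M : ℝ) (N : ℕ), 1 ≤ M → M ≤ N → SM k M N ≤ C

/-- FI: the theorem. -/
def TK_FI : Prop :=
  ∀ k : ℕ, 3 ≤ k → ∃ C : ℝ, ∀ N : ℕ, 1 ≤ N →
    ((Pool.Agent.H22.VM.sols (KN k) k N).card : ℝ) ≤ C * (N : ℝ) ^ (KN k) * (1 + Real.log N)

end Pool.Agent.H24.CL
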