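import Pool.Agent.H24.CL.Base
import Pool.Agent.H24.CL.TargetsK
import Pool.Agent.H24.CLK.ZL
import Pool.Agent.H24.CLK.PA
import Pool.Agent.H24.CLK.PH
import Pool.Agent.H24.CLK.Res
import Pool.Agent.H67.CLK.HM
import Pool.Agent.H35.CLK.KR
import Pool.Agent.H67.CLK.Van
import Pool.Agent.H5.CLK.FR
import Pool.Agent.H5.CLV.LS
import Pool.Agent.H31.CLK.IN
import Pool.Agent.H7.CLK.PP
import Pool.Agent.H19.CL.AVK
import Pool.Agent.H68.CLK.JO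
import Pool.Agent.H68.CLK.LS
import Pool.Agent.H79.CLK.SL
import Pool.Agent.H11.CLK.S1
import Pool.Agent.H49.CLK.S2
import Pool.Agent.H56.CLK.S3
import Pool.Agent.H40.CLK.S4
import Pool.Agent.H33.CLK.BD
import Pool.Agent.H31.CLK.GA
import Pool.Agent.H65.CLK.FI
import Pool.Agent.H33.CLK.IT
import Pool.Agent.H45.CLK.OX
import Pool.Agent.H55.CLK.GC
import Pool.Agent.H81.CLK.TY
import Pool.Agent.H7.CLV.SEK

/-!
# The critical mean value up to one logarithm: assembly for every `k ≥ 3` (helper24)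
-/

set_option autoImplicit false

namespace Pool.Agent.H24.CL

theorem kHM : TK_HM := Pool.Agent.H67.CLK.pf_HM rTO
theorem kVL : TK_VL := Pool.Agent.H67.CLK.pf_VL rTO kHM
theorem kVF : TK_VF := Pool.Agent.H67.CLK.pf_VF rTO kHM
theorem kKR : TK_KR := Pool.Agent.H35.CLK.pf_KR rTO
theorem kPP : TK_PP := Pool.Agent.H7.CLK.pf_PP
theorem kIN : TK_IN := Pool.Agent.H31.CLK.pf_IN kHM kVL
theorem kFR : TK_FR := Pool.Agent.H5.CLK.pf_FR kPP kHM kVF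
theorem kAV : TK_AV := Pool.Agent.H19.CL.pf_AV rCI rTO
theorem kJO : TK_JO := Pool.Agent.H68.CLK.pf_JO rTO rSH kHM
theorem kLS : TK_LS := Pool.Agent.H68.CLK.pf_LS Pool.Agent.H5.CLV.pf_LS
theorem kSL : TK_SL := Pool.Agent.H79.CLK.pf_SL rTO kHM kJO kLS

theorem rPH : T_PH := Pool.Agent.H24.CLK.pf_PH rEX rTO rNW
theorem kPA : TK_PA := Pool.Agent.H24.CLK.pf_PA kPP
theorem kZL : TK_ZL := Pool.Agent.H24.CLK.pf_ZL kPA kIN
theorem kS1 : TK_S1 := Pool.Agent.H11.CLK.pf_S1 kAV kZL kHM rTO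
theorem kS2 : TK_S2 := Pool.Agent.H49.CLK.pf_S2 kAV kZL kJO kHM rTO
theorem kS3 : TK_S3 := Pool.Agent.H56.CLK.pf_S3 kAV kZL kSL kHM
theorem kS4 : TK_S4 := Pool.Agent.H40.CLK.pf_S4 kAV kZL kKR kHM rTO
theorem kGA : TK_GA := Pool.Agent.H31.CLK.pf_GA
theorem kBD : TK_BD := Pool.Agent.H33.CLK.pf_BD kGA kS1 kS2 kS3 kS4 rLA rPH rVC rVA rTA rEX
theorem kTY : TK_TY := Pool.Agent.H81.CLK.pf_TY rEX rPF
theorem kGC : TK_GC := Pool.Agent.H55.CLK.pf_GC kFR rLA rPH rTO kHM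
theorem kSE : TK_SE := Pool.Agent.H7.CLV.pfK_SE kTY rTP kBD kGC rGO rTA rTR rEX rMP
theorem kOX : TK_OX := Pool.Agent.H45.CLK.pf_OX kSE rRO
theorem kIT : TK_IT := Pool.Agent.H33.CLK.pf_IT kOX rL2
theorem kFI : TK_FI := Pool.Agent.H65.CLK.pf_FI kIT rJI rL2 rEX

end Pool.Agent.H24.CL
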