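import Pool.Agent.H24.CL.Targets
import Pool.Agent.H34.CLV.EX
import Pool.Agent.H34.CLV.PF
import Pool.Agent.H34.CLV.CB
import Pool.Agent.H75.CLV.MP
import Pool.Agent.H58.CLV.TO
import Pool.Agent.H58.CLV.KC
import Pool.Agent.H11.CLV.SH
import Pool.Agent.H32.CLV.CI
import Pool.Agent.H72.CLV.NW
import Pool.Agent.H10.CL.WE
import Pool.Agent.H49.CLV.BO
import Pool.Agent.H68.CLV.SV
import Pool.Agent.H68.CLV.TA
import Pool.Agent.H67.CLV.TR
import Pool.Agent.H67.CLV.L2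
import Pool.Agent.H10.CL.VA
import Pool.Agent.H67.CLV.JI
import Pool.Agent.H91.CLV.TP
import Pool.Agent.H36.CLV.LA
import Pool.Agent.H40.CLV.VC
import Pool.Agent.H4.CLV.TY
import Pool.Agent.H74.CLV.OI
import Pool.Agent.H19.CL.GO
import Pool.Agent.H79.CLV.RO

/-!
# The rows of the board which hold for every `k` (helper24)
-/

set_option autoImplicit false

namespace Pool.Agent.H24.CL

theorem rEX : T_EX := Pool.Agent.H34.CLV.pf_EX
theorem rPF : T_PF := Pool.Agent.H34.CLV.pf_PF rEX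
theorem rCB : T_CB := Pool.Agent.H34.CLV.pf_CB rEX rPF
theorem rMP : T_MP := Pool.Agent.H75.CLV.pf_MP
theorem rTO : T_TO := Pool.Agent.H58.CLV.pf_TO
theorem rKC : T_KC := Pool.Agent.H58.CLV.pf_KC rTO
theorem rSH : T_SH := Pool.Agent.H11.CLV.pf_SH rTO
theorem rCI : T_CI := Pool.Agent.H32.CLV.pf_CI rMP rTO rKC
theorem rNW : T_NW := Pool.Agent.H72.CLV.pf_NW rEX rTO
theorem rWE : T_WE := Pool.Agent.H10.CL.pf_WE rEX rTO rNW
theorem rBO : T_BO := Pool.Agent.H49.CLV.pf_BO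
theorem rSV : T_SV := Pool.Agent.H68.CLV.pf_SV
theorem rTA : T_TA := Pool.Agent.H68.CLV.pf_TA rSV rEX
theorem rTR : T_TR := Pool.Agent.H67.CLV.pf_TR rSV rEX
theorem rL2 : T_L2 := Pool.Agent.H67.CLV.pf_L2 rEX
theorem rVA : T_VA := Pool.Agent.H10.CL.pf_VA rEX
theorem rJI : T_JI := Pool.Agent.H67.CLV.pf_JI rEX rPF rMP
theorem rTP : T_TP := Pool.Agent.H91.CLV.pf_TP rTA rMP
theorem rLA : T_LA := Pool.Agent.H36.CLV.pf_LA rEX rTO
theorem rVC : T_VC := Pool.Agent.H40.CLV.pf_VC rEX rPF rCB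
theorem rTY : T_TY := Pool.Agent.H4.CLV.pf_TY rEX rPF
theorem rOI : T_OI := Pool.Agent.H74.CLV.pf_OI rEX rPF rTO rSH rWE rBO rMP
theorem rGO : T_GO := Pool.Agent.H19.CL.pf_GO rOI rCI rEX
theorem rRO : T_RO := Pool.Agent.H79.CLV.pf_RO rEX rPF rMP rTA rTR

end Pool.Agent.H24.CL
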