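import Mathlib
import Pool.Agent.H22.VM.Defs

/-!
# The critical Vinogradov mean value up to one logarithm: definitions (helper24)

All levels live on the torus `X k = Fin k → ℝ/ℤ` with its Haar probability measure `volume`.
-/

set_option autoImplicit false

open Finset MeasureTheory

namespace Pool.Agent.H24.CL

/-- the torus; the coordinate `i` belongs to the exponent `i + 1` -/
abbrev X (k : ℕ) : Type := Fin k → UnitAddCircle

/-- `e x = exp (2 π i x)` -/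
noncomputable def e (x : UnitAddCircle) : ℂ := (AddCircle.toCircle x : ℂ)

/-- the phase `∑ a_i n^(i+1)` -/
noncomputable def P {k : ℕ} (a : X k) (n : ℕ) : UnitAddCircle :=
  ∑ i : Fin k, (n ^ (i.val + 1)) • a i

/-- the exponential sum over `0 ≤ n < N` -/
noncomputable def f {k : ℕ} (N : ℕ) (a : X k) : ℂ := ∑ n ∈ range N, e (P a n)

/-- the normalised exponential sum -/
noncomputable def u {k : ℕ} (N : ℕ) (a : X k) : ℂ := f N a / (N : ℂ)

/-- the critical exponent as a natural number -/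
def KN (k : ℕ) : ℕ := k * (k + 1) / 2

/-- the coefficients of `P a (b + q X) - P a b` -/
noncomputable def phi {k : ℕ} (q b : ℕ) : X k →+ X k where
  toFun a := fun i => ∑ j : Fin k,
    (Nat.choose (j.val + 1) (i.val + 1) * b ^ (j.val - i.val) * q ^ (i.val + 1)) • a j
  map_zero' := by
    funext i
    simp
  map_add' a a' := by
    funext i
    simp [Finset.sum_add_distrib]

/-- the composition of the maps `phi q b` along a list of positions (the head first) -/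
noncomputable def Ch {k : ℕ} (q : ℕ) : List ℕ → (X k →+ X k)
  | [] => AddMonoidHom.id _
  | b :: c => (Ch q c).comp (phi q b)

/-- the point `n / q^r` -/
noncomputable def tor {k : ℕ} (q r : ℕ) (n : Fin k → ℤ) : X k :=
  fun i => (((n i : ℝ) / (q : ℝ) ^ r : ℝ) : UnitAddCircle)

/-- the points killed by `q^r` -/
def H (k q r : ℕ) : AddSubgroup (X k) := (nsmulAddMonoidHom (q ^ r) : X k →+ X k).ker

/-- the points killed by `q` in the direction of the first coordinate -/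
def Ln (k q : ℕ) : AddSubgroup (X k) where
  carrier := {a | q • a = 0 ∧ ∀ i : Fin k, i.val ≠ 0 → a i = 0}
  zero_mem' := by simp
  add_mem' := by
    rintro a b ⟨h1, h2⟩ ⟨h3, h4⟩
    refine ⟨by rw [smul_add, h1, h3, add_zero], fun i hi => ?_⟩
    rw [Pi.add_apply, h2 i hi, h4 i hi, add_zero]
  neg_mem' := by
    rintro a ⟨h1, h2⟩
    refine ⟨by rw [smul_neg, h1, neg_zero], fun i hi => ?_⟩
    rw [Pi.neg_apply, h2 i hi, neg_zero]

/-- `W` has at most `B` points in every coset of `S` -/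
def Cnt {k : ℕ} (S : AddSubgroup (X k)) (W : Set (X k)) (B : ℝ) : Prop :=
  ∀ Y : Finset (X k), (∀ y ∈ Y, y ∈ W) → (∀ y ∈ Y, ∀ y' ∈ Y, y - y' ∈ S) → (Y.card : ℝ) ≤ B

/-- every point of `W` has at least `n` children in `W'` -/
def Car {k : ℕ} (q : ℕ) (W W' : Set (X k)) (n : ℝ) : Prop :=
  ∀ w ∈ W, ∃ D : Finset ℕ, D ⊆ range q ∧ (∀ b ∈ D, phi q b w ∈ W') ∧ n ≤ (D.card : ℝ)

open Classical in
/-- the positions of the children of `w` in `W` -/
noncomputable def pos {k : ℕ} (q : ℕ) (W : Set (X k)) (w : X k) : Finset ℕ :=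
  (range q).filter (fun b => phi q b w ∈ W)

/-- A chain of classes `W 0, …, W m` for the sums of length `q^(m-j) L`: the amplitude of the points
of `W j` is between `A j` and `ρ A j`, they have between `n j` and `ρ n j` children in `W (j+1)`,
and these children carry at least the proportion `1/T` of the amplitude. -/
structure IsChain (k q m L : ℕ) (T ρ t₀ : ℝ) (W : ℕ → Set (X k)) (A n : ℕ → ℝ) : Prop where
  meas : ∀ j ≤ m, MeasurableSet (W j)
  lo : ∀ j ≤ m, ∀ w ∈ W j, A j ≤ ‖u (q ^ (m - j) * L) w‖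
  hi : ∀ j ≤ m, ∀ w ∈ W j, ‖u (q ^ (m - j) * L) w‖ ≤ ρ * A j
  A_lo : ∀ j ≤ m, t₀ / 2 ^ m ≤ A j
  A_hi : ∀ j ≤ m, A j ≤ t₀ * (q : ℝ) ^ m
  one_le : ∀ j < m, 1 ≤ n j
  n_le : ∀ j < m, n j ≤ q
  card_lo : ∀ j < m, ∀ w ∈ W j, n j ≤ ((pos q (W (j + 1)) w).card : ℝ)
  card_hi : ∀ j < m, ∀ w ∈ W j, ((pos q (W (j + 1)) w).card : ℝ) ≤ ρ * n j
  carry : ∀ j < m, ∀ w ∈ W j, (q : ℝ) * ‖u (q ^ (m - j) * L) w‖ ≤
    T * ‖∑ b ∈ pos q (W (j + 1)) w, e (P w b) * u (q ^ (m - (j + 1)) * L) (phi q b w)‖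

/-- the line growth of the class `W j` of a chain -/
noncomputable def Gr (q : ℕ) (T ρ : ℝ) (A n : ℕ → ℝ) (j : ℕ) : ℝ :=
  T ^ 2 * ρ ^ 3 * n j * A (j + 1) ^ 2 / ((q : ℝ) * A j ^ 2)

/-- the points some descendant of which is too high -/
def Etop (k q m L : ℕ) (t : ℝ) : Set (X k) :=
  {a | ∃ c : List ℕ, c.length ≤ m ∧ (∀ b ∈ c, b < q) ∧ t ≤ ‖u (q ^ (m - c.length) * L) (Ch q c a)‖}

open Classical in
/-- the points killed by `q^r`, as a finite set -/
noncomputable def HF (k q r : ℕ) : Finset (X k) :=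
  (Fintype.piFinset fun _ : Fin k => range (q ^ r)).image fun n => tor q r fun i => (n i : ℤ)

/-- the position `∑ c_i q^i` of a list of digits -/
def pv (q : ℕ) : List ℕ → ℕ
  | [] => 0
  | b :: c => b + q * pv q c

/-- the sum over the class of `B` modulo `Q` -/
noncomputable def fc {k : ℕ} (Q B L : ℕ) (a : X k) : ℂ := ∑ z ∈ range L, e (P a (B + Q * z))

/-! ### the orbit of `H 3 q 3` in digits (`k = 3`) -/

/-- the point of the orbit with the digits `w3, w2, w1` -/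
noncomputable def orb (q : ℕ) (w3 w2 w1 : Fin 3 → ℕ) : X 3 :=
  tor q 3 fun i => ((w3 i + q * w2 i + q ^ 2 * w1 i : ℕ) : ℤ)

/-- the cell with the digits `r, s, t` -/
noncomputable def cel (q r s t : ℕ) : X 3 := fun i =>
  if i.val = 0 then ((((r : ℝ) + q * t) / (q : ℝ) ^ 2 : ℝ) : UnitAddCircle)
  else if i.val = 1 then (((s : ℝ) / q : ℝ) : UnitAddCircle) else 0

/-- value of the derivative polynomial -/
def Dv (w : Fin 3 → ℕ) (b : ℕ) : ℕ := w 0 + 2 * b * w 1 + 3 * b ^ 2 * w 2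

/-- half of the second derivative -/
def Dw (w : Fin 3 → ℕ) (b : ℕ) : ℕ := w 1 + 3 * b * w 2

/-- the same over `ZMod q` -/
def Zv {q : ℕ} (w : Fin 3 → ZMod q) (b : ZMod q) : ZMod q := w 0 + 2 * b * w 1 + 3 * b ^ 2 * w 2

/-- the same over `ZMod q` -/
def Zw {q : ℕ} (w : Fin 3 → ZMod q) (b : ZMod q) : ZMod q := w 1 + 3 * b * w 2

/-- a vector of digits -/
abbrev V3 (q : ℕ) : Type := Fin 3 → ZMod q

/-- Hypotheses of the abstract orbit lemma: `A0` is the set of the alive points `(w3, w2, w1)` of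
the orbit, `A1 b` the set of the alive cells `(r, s, t)` of the column `b`. -/
structure Orbit (q : ℕ) (A0 : Finset (V3 q × V3 q × V3 q))
    (A1 : ZMod q → Finset (ZMod q × ZMod q × ZMod q)) (kap : ZMod q → V3 q → ZMod q)
    (n F E R S : ℝ) : Prop where
  hn : 1 ≤ n
  hnq : n ≤ q
  hF : 1 ≤ F
  hE : 1 ≤ E
  hR : 1 ≤ R
  hS : 1 ≤ S
  h0 : ∀ w ∈ A0, ∃ D : Finset (ZMod q), n ≤ (D.card : ℝ) ∧
    ∀ b ∈ D, (Zv w.1 b, Zw w.1 b, Zv w.2.1 b + kap b w.1) ∈ A1 b
  h1 : ∀ (w3 w2 : V3 q) (Y : Finset (V3 q)), (∀ w1 ∈ Y, (w3, w2, w1) ∈ A0) → (Y.card : ℝ) ≤ F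
  h2 : ∀ (b r s : ZMod q) (Y : Finset (ZMod q)), (∀ t ∈ Y, (r, s, t) ∈ A1 b) → (Y.card : ℝ) ≤ E
  h3 : ∀ (b : ZMod q) (Y : Finset (ZMod q)), (∀ r ∈ Y, ∃ s t, (r, s, t) ∈ A1 b) →
    (Y.card : ℝ) ≤ R
  h4 : ∀ (b r : ZMod q) (Y : Finset (ZMod q)), (∀ s ∈ Y, ∃ t, (r, s, t) ∈ A1 b) →
    (Y.card : ℝ) ≤ S

open Classical in
/-- the alive points of the orbit of `a` in digits -/
noncomputable def A0s (q : ℕ) [NeZero q] (W : Set (X 3)) (a : X 3) :
    Finset (V3 q × V3 q × V3 q) :=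
  univ.filter fun w => a + orb q (fun i => (w.1 i).val) (fun i => (w.2.1 i).val)
    (fun i => (w.2.2 i).val) ∈ W

open Classical in
/-- the alive cells of the column `b` in digits -/
noncomputable def A1s (q : ℕ) [NeZero q] (W : Set (X 3)) (a : X 3) (b : ZMod q) :
    Finset (ZMod q × ZMod q × ZMod q) :=
  univ.filter fun v => phi q b.val a + cel q v.1.val v.2.1.val v.2.2.val ∈ W

/-- the carry -/
def kaps (q : ℕ) (b : ZMod q) (w : V3 q) : ZMod q :=
  ((Dv (fun i => (w i).val) b.val / q : ℕ) : ZMod q)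

/-- the payoffs `x` which the three step inequalities give at the level `j` (`k = 3`) -/
def Opt (g p : ℕ → ℝ) (kap : ℝ) (j : ℕ) (x : ℝ) : Prop :=
  x ≤ 6 * (g j + p j) - 3 * g j - p j - 2 * min 1 (g (j + 1) + p j) -
      min 1 (g (j + 2) + p (j + 1) + p j) ∨
  (g (j + 1) + 2 * p j ≤ 1 - kap ∧
    x ≤ 6 * (g j + p j) - 3 * g j - p j - min 1 (g (j + 2) + p (j + 1) + p j)) ∨
  (g (j + 1) + 2 * p j ≤ 1 - kap ∧ 3 * g (j + 1) + p j ≤ 1 - kap ∧
    x ≤ 6 * (g j + p j) - 3 * g j - g (j + 1) - 3 * p j)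

/-- the functional `(N/M)^K ∫ (M |u_N|² - 1/2)_+` -/
noncomputable def SM (k : ℕ) (M : ℝ) (N : ℕ) : ℝ :=
  ((N : ℝ) / M) ^ (KN k) * ∫ a : X k, max (M * ‖u N a‖ ^ 2 - 1 / 2) 0

end Pool.Agent.H24.CL
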