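import Pool.Agent.H24.CL.Defs

/-!
# The critical mean value up to one logarithm for every `k ≥ 3`: definitions (helper24, helper31)
-/

set_option autoImplicit false

open Finset MeasureTheory

namespace Pool.Agent.H24.CL

/-- at most `B` positions of every coset of `H k q r` through `U` lead to `V` -/
def Pass (k q r : ℕ) (U V : Set (X k)) (B : ℝ) : Prop :=
  ∀ z ∈ U, ∀ D : Finset ℕ, D ⊆ range q → (∀ b ∈ D, ∃ h ∈ H k q r, phi q b (z + h) ∈ V) →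
    (D.card : ℝ) ≤ B

/-- at least `B` positions of every coset of `H k q r` through `U` lead to `V` -/
def Own (k q r : ℕ) (U V : Set (X k)) (B : ℝ) : Prop :=
  ∀ z ∈ U, ∃ D : Finset ℕ, D ⊆ range q ∧ (∀ b ∈ D, ∃ h ∈ H k q r, phi q b (z + h) ∈ V) ∧
    B ≤ (D.card : ℝ)

/-- The labels of a chain: `R j = 0` if the points of `W j` have many children, otherwise `R j` is
the largest `r ≤ k` such that the cosets of `H k q r` through `W j` have few positions. -/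
structure IsLab (k q m : ℕ) (ρ : ℝ) (W : ℕ → Set (X k)) (n : ℕ → ℝ) (R : ℕ → ℕ) : Prop where
  le : ∀ j < m, R j ≤ k
  big : ∀ j < m, R j = 0 → ρ ≤ n j
  few : ∀ j < m, 1 ≤ R j → n j ≤ ρ
  pass : ∀ j < m, 1 ≤ R j → Pass k q (R j) (W j) (W (j + 1)) (ρ ^ 2)
  own : ∀ j < m, 1 ≤ R j → R j < k → Own k q (R j + 1) (W j) (W (j + 1)) (ρ ^ 2)

/-- the number of the digits `e` with `r < e ≤ k` and `max 1 R + l < e` -/
def wt (k r R l : ℕ) : ℕ := min (k - r) (k - max 1 R - l)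

/-- the factor of the levels after the first position -/
noncomputable def ZB (k q r : ℕ) (R : ℕ → ℕ) (n G : ℕ → ℝ) : ℝ :=
  (∏ l ∈ Icc 1 (k - 2), ((q : ℝ) / n l) ^ wt k r (R l) l) * ∏ l ∈ Icc r (k - 1), G l ^ (k - l)

/-- the data of the levels `1, …, k - 1` -/
structure Lev (k q : ℕ) (W : ℕ → Set (X k)) (R : ℕ → ℕ) (n G : ℕ → ℝ) (B : ℝ) : Prop where
  hB : 1 ≤ B
  hn : ∀ l, 1 ≤ l → l + 2 ≤ k → 1 ≤ n l ∧ n l ≤ q
  car : ∀ l, 1 ≤ l → l + 2 ≤ k → Car q (W l) (W (l + 1)) (n l)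
  hG : ∀ l, 1 ≤ l → l + 1 ≤ k → 1 ≤ G l
  cnt : ∀ l, 1 ≤ l → l + 1 ≤ k → Cnt (Ln k q) (W l) (G l)
  pass : ∀ l, 1 ≤ l → l + 2 ≤ k → 1 ≤ R l → Pass k q (R l) (W l) (W (l + 1)) B

/-- Paths of the points of `Y`: for every digit `e` with `r < e ≤ k` a path of length `e - 1`
starting at `y + s e y`, with common heads `hd e` and common recorded positions. -/
structure Paths (k q r b₁ : ℕ) (W : ℕ → Set (X k)) (R : ℕ → ℕ) (Y : Finset (X k)) (hd : ℕ → ℕ)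
    (p : ℕ → X k → List ℕ) (s : ℕ → X k → X k) : Prop where
  len : ∀ e, r < e → e ≤ k → ∀ y ∈ Y, (p e y).length = e - 1
  dig : ∀ e, r < e → e ≤ k → ∀ y ∈ Y, ∀ b ∈ p e y, b < q
  head : ∀ e, r < e → e ≤ k → ∀ y ∈ Y, (p e y).head? = some (hd e)
  ne : ∀ e, r < e → e ≤ k → hd e ≠ b₁
  inj : ∀ e e', r < e → e ≤ k → r < e' → e' ≤ k → hd e = hd e' → e = e'
  sh : ∀ e, r < e → e ≤ k → ∀ y ∈ Y, s e y ∈ H k q r
  mem : ∀ e, r < e → e ≤ k → ∀ y ∈ Y, ∀ t, 1 ≤ t → t + 1 ≤ e →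
    Ch q ((p e y).take t) (y + s e y) ∈ W t
  same : ∀ e, r < e → e ≤ k → ∀ y ∈ Y, ∀ y' ∈ Y, ∀ l, 1 ≤ l → l + 2 ≤ e →
    max 1 (R l) + l < e → (p e y)[l]? = (p e y')[l]?

open Classical in
/-- the positions of the points of `W` in the coset `a + H k q r` which lead to `V` -/
noncomputable def Bs (k q r : ℕ) (W V : Set (X k)) (a : X k) : Finset ℕ :=
  (range q).filter fun b => ∃ h ∈ H k q r, a + h ∈ W ∧ phi q b (a + h) ∈ V

open Classical in
/-- the number of the points of `V` in the image of the coset `a + H k q r` under `phi q b` -/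
noncomputable def cc (k q r b : ℕ) (V : Set (X k)) (a : X k) : ℕ :=
  (((HF k q r).image fun h => phi q b (a + h)).filter fun v => v ∈ V).card

/-- value of the derivative over `ZMod q` -/
def Zvk {k q : ℕ} (w : Fin k → ZMod q) (b : ZMod q) : ZMod q :=
  ∑ i : Fin k, ((i.val + 1 : ℕ) : ZMod q) * b ^ i.val * w i

/-- half of the second derivative over `ZMod q` -/
def Zwk {k q : ℕ} (w : Fin k → ZMod q) (b : ZMod q) : ZMod q :=
  ∑ i : Fin k, ((Nat.choose (i.val + 1) 2 : ℕ) : ZMod q) * b ^ (i.val - 1) * w i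

/-- the exponent of the kernel of `phi q b` in `H k q r` -/
def kr (k r : ℕ) : ℕ := r * k - r * (r - 1) / 2

/-- the cost of the growths of the levels `j + r, …, j + k - 1` -/
noncomputable def gcK (k : ℕ) (g : ℕ → ℝ) (j r : ℕ) : ℝ :=
  ∑ l ∈ Icc r (k - 1), ((k - l : ℕ) : ℝ) * min 1 (g (j + l))

/-- the cost of the sparsities of the levels `j + 1, …, j + k - 2` -/
noncomputable def pcK (k : ℕ) (R : ℕ → ℕ) (p : ℕ → ℝ) (j r : ℕ) : ℝ :=
  ∑ l ∈ Icc 1 (k - 2), ((wt k r (R (j + l)) l : ℕ) : ℝ) * p (j + l)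

/-- the payoffs `x` which the four step inequalities give at the level `j` -/
def OptK (k : ℕ) (R : ℕ → ℕ) (g p : ℕ → ℝ) (kap : ℝ) (j : ℕ) (x : ℝ) : Prop :=
  (R j = 0 ∧ x ≤ (KN k : ℝ) * (g j + p j) - k * g j - k * p j - gcK k g j 1 - pcK k R p j 1) ∨
  (R j = 0 ∧ g (j + 1) + 2 * p j ≤ 1 - kap ∧
    x ≤ (KN k : ℝ) * (g j + p j) - k * g j - (k - 1) * p j - gcK k g j 2 - pcK k R p j 2) ∨
  (R j = 0 ∧ g (j + 1) + 2 * p j ≤ 1 - kap ∧ k * g (j + 1) + p j ≤ 1 - kap ∧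
    x ≤ (KN k : ℝ) * (g j + p j) - k * g j - g (j + 1) - (k - 3) - k * p j - gcK k g j 3 -
      pcK k R p j 3) ∨
  (1 ≤ R j ∧
    x ≤ (KN k : ℝ) * (g j + p j) - 1 - (kr k (min (R j + 1) k) : ℝ) - (k - min (R j + 1) k : ℕ) -
      gcK k g j (min (R j + 1) k) - pcK k R p j (min (R j + 1) k))

end Pool.Agent.H24.CL
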